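import Mathlib

/-!
# Chains of pairs

`lt2 v w`: `v.1 < w.1` and `w.2 < v.2`.  A set of pairs without `lt2`-chains of length `s + 1` is a
union of `s` sets without comparable elements (Mirsky), each of size at most `2 |A| - 1`.
-/

open Finset

namespace P5180

/-- the strict order on pairs -/
def lt2 (v w : ℕ × ℕ) : Prop := v.1 < w.1 ∧ w.2 < v.2

theorem lt2_trans {u v w : ℕ × ℕ} (h : lt2 u v) (h' : lt2 v w) : lt2 u w :=
  ⟨h.1.trans h'.1, h'.2.trans h.2⟩

private theorem rk_lt {A : Finset ℕ} {a b : ℕ} (ha : a ∈ A) (hab : a < b) :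
    (A.filter (· < a)).card < (A.filter (· < b)).card := by
  refine Finset.card_lt_card ⟨fun x hx => ?_, fun h => ?_⟩
  · rw [Finset.mem_filter] at hx ⊢
    exact ⟨hx.1, hx.2.trans hab⟩
  · have h1 := h (Finset.mem_filter.2 ⟨ha, hab⟩)
    exact lt_irrefl _ (Finset.mem_filter.1 h1).2

private theorem rk_card {A : Finset ℕ} {a : ℕ} (ha : a ∈ A) :
    (A.filter (· < a)).card + 1 ≤ A.card := by
  refine Finset.card_lt_card ⟨Finset.filter_subset _ _, fun h => ?_⟩
  exact lt_irrefl _ (Finset.mem_filter.1 (h ha)).2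

theorem stair_card (A : Finset ℕ) (V : Finset (ℕ × ℕ)) (hV : ∀ v ∈ V, v.1 ∈ A ∧ v.2 ∈ A)
    (h : ∀ v ∈ V, ∀ w ∈ V, ¬ lt2 v w) : V.card ≤ 2 * A.card - 1 := by
  have h1 : V.card ≤ (Finset.range (2 * A.card - 1)).card := by
    refine Finset.card_le_card_of_injOn
      (fun v => (A.filter (· < v.1)).card + (A.filter (· < v.2)).card) ?_ ?_
    · intro v hv
      have h2 := rk_card (hV v hv).1
      have h3 := rk_card (hV v hv).2
      simp only [Finset.coe_range, Set.mem_Iio]
      omega
    · intro v hv w hw hvw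
      have hv' := hV v hv
      have hw' := hV w hw
      simp only at hvw
      rcases lt_trichotomy v.1 w.1 with h2 | h2 | h2
      · rcases lt_or_ge w.2 v.2 with h3 | h3
        · exact absurd ⟨h2, h3⟩ (h v hv w hw)
        · have h4 := rk_lt hv'.1 h2
          rcases h3.lt_or_eq with h5 | h5
          · have h6 := rk_lt hv'.2 h5
            omega
          · rw [h5] at hvw
            omega
      · rcases lt_trichotomy v.2 w.2 with h3 | h3 | h3
        · have h6 := rk_lt hv'.2 h3
          rw [h2] at hvw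
          omega
        · exact Prod.ext h2 h3
        · have h6 := rk_lt hw'.2 h3
          rw [h2] at hvw
          omega
      · rcases lt_or_ge v.2 w.2 with h3 | h3
        · exact absurd ⟨h2, h3⟩ (h w hw v hv)
        · have h4 := rk_lt hw'.1 h2
          rcases h3.lt_or_eq with h5 | h5
          · have h6 := rk_lt hw'.2 h5
            omega
          · rw [h5] at hvw
            omega
  simpa using h1

theorem mirsky (A : Finset ℕ) (s : ℕ) : ∀ V : Finset (ℕ × ℕ), (∀ v ∈ V, v.1 ∈ A ∧ v.2 ∈ A) →
    (¬ ∃ g : Fin (s + 1) → ℕ × ℕ, (∀ i, g i ∈ V) ∧ ∀ i j, i < j → lt2 (g i) (g j)) →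
    V.card ≤ s * (2 * A.card - 1) := by
  classical
  induction s with
  | zero =>
    intro V hV h
    rw [zero_mul, Nat.le_zero, Finset.card_eq_zero, Finset.eq_empty_iff_forall_notMem]
    intro v hv
    refine h ⟨fun _ => v, fun _ => hv, fun i j hij => ?_⟩
    have h1 := i.isLt
    have h2 := j.isLt
    have h3 : i.val < j.val := hij
    omega
  | succ s ih =>
    intro V hV h
    have h1 := Finset.card_filter_add_card_filter_not (s := V) (fun v => ∃ w ∈ V, lt2 w v)
    have h2 : (V.filter fun v => ∃ w ∈ V, lt2 w v).card ≤ s * (2 * A.card - 1) := by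
      refine ih _ (fun v hv => hV v (Finset.mem_filter.1 hv).1) ?_
      rintro ⟨g, hg, hg'⟩
      obtain ⟨hg0, w, hw, hw'⟩ := Finset.mem_filter.1 (hg 0)
      refine h ⟨Fin.cons w g, fun i => ?_, fun i j hij => ?_⟩
      · refine Fin.cases ?_ (fun i => ?_) i
        · simpa using hw
        · simpa using (Finset.mem_filter.1 (hg i)).1
      · rcases Fin.eq_zero_or_eq_succ j with rfl | ⟨j, rfl⟩
        · exact absurd hij (by simp)
        · rcases Fin.eq_zero_or_eq_succ i with rfl | ⟨i, rfl⟩
          · rw [Fin.cons_zero, Fin.cons_succ]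
            rcases Fin.eq_zero_or_eq_succ j with rfl | ⟨j', rfl⟩
            · exact hw'
            · exact lt2_trans hw' (hg' 0 _ (Fin.succ_pos _))
          · rw [Fin.cons_succ, Fin.cons_succ]
            exact hg' i j (by simpa using hij)
    have h3 : (V.filter fun v => ¬ ∃ w ∈ V, lt2 w v).card ≤ 2 * A.card - 1 := by
      refine stair_card A _ (fun v hv => hV v (Finset.mem_filter.1 hv).1) ?_
      intro v hv w hw hvw
      exact (Finset.mem_filter.1 hw).2 ⟨v, (Finset.mem_filter.1 hv).1, hvw⟩
    have h4 : (s + 1) * (2 * A.card - 1) = s * (2 * A.card - 1) + (2 * A.card - 1) := by ring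
    omega

end P5180
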