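import Mathlib

/-!
# Rearrangement for strictly convex functions, and vanishing minors

`strict_rearr`: for a strict Monge array the identity is the unique minimiser of the assignment
problem.  `exists_H`: a strictly convex minorant of a finite set of points of the plane which touches
given vertices.  `no_minor`: a matrix of rank at most `s` has no vertices on an antichain of size
`s + 1`.
-/

open Finset

namespace P5180

private theorem min_eq_one {n : ℕ} (K : Fin n → Fin n → ℝ)
    (hK : ∀ i j k l, i < j → k < l → K i k + K j l < K i l + K j k) (σ : Equiv.Perm (Fin n))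
    (hσ : ∀ π : Equiv.Perm (Fin n), ∑ i, K i (σ i) ≤ ∑ i, K i (π i)) : σ = 1 := by
  classical
  by_contra hne
  have h1 : ∃ i j, i < j ∧ σ j < σ i := by
    by_contra h2
    push Not at h2
    have h3 : StrictMono σ := by
      intro i j hij
      exact lt_of_le_of_ne (h2 i j hij) fun h => hij.ne (σ.injective h)
    apply hne
    have h4 : (σ : Fin n → Fin n) = id := by
      refine (h3.range_inj strictMono_id).1 ?_
      rw [σ.surjective.range_eq, Set.range_id]
    exact Equiv.ext fun i => congrFun h4 i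
  obtain ⟨i, j, hij, hji⟩ := h1
  have h2 := hσ (σ * Equiv.swap i j)
  have hjm : j ∈ (Finset.univ : Finset (Fin n)).erase i := by simp [hij.ne']
  rw [← Finset.add_sum_erase _ _ (Finset.mem_univ i), ← Finset.add_sum_erase _ _ hjm,
    ← Finset.add_sum_erase _ _ (Finset.mem_univ i), ← Finset.add_sum_erase _ _ hjm] at h2
  have h3 : ∑ x ∈ ((Finset.univ : Finset (Fin n)).erase i).erase j, K x ((σ * Equiv.swap i j) x) =
      ∑ x ∈ ((Finset.univ : Finset (Fin n)).erase i).erase j, K x (σ x) := by
    refine Finset.sum_congr rfl fun x hx => ?_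
    rw [Finset.mem_erase, Finset.mem_erase] at hx
    rw [Equiv.Perm.mul_apply, Equiv.swap_apply_of_ne_of_ne hx.2.1 hx.1]
  rw [h3] at h2
  simp only [Equiv.Perm.mul_apply, Equiv.swap_apply_left, Equiv.swap_apply_right] at h2
  have h4 := hK i j (σ j) (σ i) hij hji
  linarith

theorem strict_rearr {n : ℕ} (K : Fin n → Fin n → ℝ)
    (hK : ∀ i j k l, i < j → k < l → K i k + K j l < K i l + K j k) (π : Equiv.Perm (Fin n))
    (hπ : π ≠ 1) : ∑ i, K i i < ∑ i, K i (π i) := by
  obtain ⟨σ, hσ⟩ := Finite.exists_min fun π : Equiv.Perm (Fin n) => ∑ i, K i (π i)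
  have h1 := min_eq_one K hK σ hσ
  have h2 : ∑ i, K i i ≤ ∑ i, K i (π i) := by
    have h3 := hσ π
    rw [h1] at h3
    simpa using h3
  refine lt_of_le_of_ne h2 fun h3 => hπ (min_eq_one K hK π fun τ => ?_)
  have h4 := hσ τ
  rw [h1] at h4
  simp only [Equiv.Perm.coe_one, id_eq] at h4
  rw [← h3]
  exact h4

/-- A strictly convex function below the points of `Q` and above the vertices `(e i, η i)`. -/
theorem exists_H {n : ℕ} [NeZero n] (e η y : Fin n → ℝ) (Q : Finset (ℝ × ℝ))
    (hQ : ∀ q ∈ Q, ∀ i, (q.1 = e i ∧ q.2 = η i) ∨ η i + y i * (q.1 - e i) < q.2) :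
    ∃ H : ℝ → ℝ, (∀ q ∈ Q, H q.1 ≤ q.2) ∧ (∀ i, η i ≤ H (e i)) ∧
      ∀ a b c d : ℝ, a < b → a < c → a + d = b + c → H b + H c < H a + H d := by
  classical
  have h1 : ∃ δ : ℝ, 0 < δ ∧ ∀ q ∈ Q, ∀ i, η i + y i * (q.1 - e i) + δ * (q.1 - e i) ^ 2 ≤ q.2 := by
    have h2 : ∀ᶠ δ : ℝ in nhdsWithin 0 (Set.Ioi 0), ∀ q ∈ Q, ∀ i,
        η i + y i * (q.1 - e i) + δ * (q.1 - e i) ^ 2 ≤ q.2 := by
      rw [Filter.eventually_all_finset]
      intro q hq
      rw [Filter.eventually_all]
      intro i
      rcases hQ q hq i with h3 | h3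
      · rw [h3.1, h3.2]
        simp
      · have h4 : Filter.Tendsto (fun δ : ℝ => η i + y i * (q.1 - e i) + δ * (q.1 - e i) ^ 2)
            (nhdsWithin 0 (Set.Ioi 0)) (nhds (η i + y i * (q.1 - e i) + 0 * (q.1 - e i) ^ 2)) := by
          refine Filter.Tendsto.mono_left ?_ nhdsWithin_le_nhds
          exact (by fun_prop : Continuous fun δ : ℝ =>
            η i + y i * (q.1 - e i) + δ * (q.1 - e i) ^ 2).tendsto 0
        rw [zero_mul, add_zero] at h4
        exact (h4.eventually_lt_const h3).mono fun δ h => h.le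
    obtain ⟨δ, hδ, hδ'⟩ := (h2.and self_mem_nhdsWithin).exists
    exact ⟨δ, hδ', hδ⟩
  obtain ⟨δ, hδ, hle⟩ := h1
  have hne : (Finset.univ : Finset (Fin n)).Nonempty := ⟨0, Finset.mem_univ _⟩
  let qf : Fin n → ℝ → ℝ := fun i x => η i + y i * (x - e i) + δ * (x - e i) ^ 2
  let H : ℝ → ℝ := fun x => Finset.univ.sup' hne fun i => qf i x
  have hqH : ∀ i x, qf i x ≤ H x := fun i x => Finset.le_sup' (fun i => qf i x) (Finset.mem_univ i)
  have hex : ∀ x, ∃ i, H x = qf i x := by
    intro x
    obtain ⟨i, -, hi⟩ := Finset.exists_mem_eq_sup' hne fun i => qf i x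
    exact ⟨i, hi⟩
  refine ⟨H, fun q hq => ?_, fun i => ?_, ?_⟩
  · obtain ⟨i, hi⟩ := hex q.1
    rw [hi]
    exact hle q hq i
  · refine le_trans (le_of_eq ?_) (hqH i (e i))
    simp [qf]
  · intro a b c d hab hac hsum
    obtain ⟨i, hi⟩ := hex b
    obtain ⟨j, hj⟩ := hex c
    have hbd : b < d := by linarith
    have hcd : c < d := by linarith
    have had : 0 < d - a := by linarith
    -- strict convexity of a quadratic function
    have hq : ∀ (k : Fin n) (x : ℝ), a < x → x < d →
        (d - a) * qf k x < (d - x) * H a + (x - a) * H d := by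
      intro k x h1 h2
      have h3 : (d - x) * qf k a ≤ (d - x) * H a :=
        mul_le_mul_of_nonneg_left (hqH k a) (by linarith)
      have h4 : (x - a) * qf k d ≤ (x - a) * H d :=
        mul_le_mul_of_nonneg_left (hqH k d) (by linarith)
      have h5 : (d - x) * qf k a + (x - a) * qf k d - (d - a) * qf k x =
          δ * ((d - x) * (x - a) * (d - a)) := by
        simp only [qf]
        ring
      have h6 : 0 < δ * ((d - x) * (x - a) * (d - a)) := by
        have h7 : 0 < d - x := by linarith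
        have h8 : 0 < x - a := by linarith
        positivity
      linarith
    have h1 := hq i b hab hbd
    have h2 := hq j c hac hcd
    rw [hi, hj]
    have h3 : (d - a) * (qf i b + qf j c) < (d - a) * (H a + H d) := by
      have h4 : c = a + d - b := by linarith
      subst h4
      nlinarith
    exact lt_of_mul_lt_mul_left h3 had.le

/-- No vertices on an antichain of size `s + 1`. -/
theorem no_minor {s : ℕ} (M : ℕ → ℕ → ℝ) (u w : Fin s → ℕ → ℝ)
    (hM : ∀ a b, M a b = ∑ i, u i a * w i b) (a b : Fin (s + 1) → ℕ) (h : ℕ → ℝ)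
    (hne : ∀ i, M (a i) (b i) ≠ 0) (K : Fin (s + 1) → Fin (s + 1) → ℝ)
    (hK : ∀ i j k l, i < j → k < l → K i k + K j l < K i l + K j k)
    (h1 : ∀ i j, M (a i) (b j) ≠ 0 → K i j ≤ h (a i) + h (b j))
    (h2 : ∀ i, h (a i) + h (b i) ≤ K i i) : False := by
  classical
  let N : Matrix (Fin (s + 1)) (Fin (s + 1)) ℝ := Matrix.of fun i j => M (a i) (b j)
  let U : Matrix (Fin (s + 1)) (Fin s) ℝ := Matrix.of fun i k => u k (a i)
  let W : Matrix (Fin s) (Fin (s + 1)) ℝ := Matrix.of fun k j => w k (b j)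
  have hN : N = U * W := by
    ext i j
    rw [Matrix.mul_apply]
    exact hM _ _
  have hdet0 : N.det = 0 := by
    by_contra h3
    have h4 : IsUnit N := (Matrix.isUnit_iff_isUnit_det N).2 (isUnit_iff_ne_zero.2 h3)
    have h5 := Matrix.rank_of_isUnit N h4
    have h6 : N.rank ≤ s := by
      rw [hN]
      exact (Matrix.rank_mul_le_left U W).trans (Matrix.rank_le_width U)
    rw [h5, Fintype.card_fin] at h6
    omega
  have hdet : N.det = ∏ i, N i i := by
    rw [Matrix.det_apply]
    rw [Finset.sum_eq_single (1 : Equiv.Perm (Fin (s + 1)))]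
    · simp
    · intro π _ hπ
      have h3 : ∃ i, M (a (π i)) (b i) = 0 := by
        by_contra h4
        push Not at h4
        have hπ' : π⁻¹ ≠ 1 := fun h5 => hπ (inv_eq_one.1 h5)
        have h5 := strict_rearr K hK π⁻¹ hπ'
        have h6 : ∑ i, K i (π⁻¹ i) = ∑ i, K (π i) i := by
          rw [← Equiv.sum_comp π fun i => K i (π⁻¹ i)]
          simp
        have h7 : ∑ i, K (π i) i ≤ ∑ i, (h (a (π i)) + h (b i)) :=
          Finset.sum_le_sum fun i _ => h1 _ _ (h4 i)
        have h8 : ∑ i, (h (a (π i)) + h (b i)) = ∑ i, (h (a i) + h (b i)) := by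
          rw [Finset.sum_add_distrib, Finset.sum_add_distrib,
            Equiv.sum_comp π fun i => h (a i)]
        have h9 : ∑ i, (h (a i) + h (b i)) ≤ ∑ i, K i i := Finset.sum_le_sum fun i _ => h2 i
        linarith
      obtain ⟨i, hi⟩ := h3
      have h4 : ∏ i, N (π i) i = 0 := Finset.prod_eq_zero (Finset.mem_univ i) hi
      rw [h4, smul_zero]
    · intro h3
      exact absurd (Finset.mem_univ _) h3
  rw [hdet] at hdet0
  obtain ⟨i, -, hi⟩ := Finset.prod_eq_zero_iff.1 hdet0
  exact hne i hi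

end P5180
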