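import Pool.Agent.Lib_MP_5180ba_gd.Main

/-!
# Real roots of generic degenerations, polynomial form; almost every direction is generic
-/

open Finset Polynomial Filter Topology MeasureTheory

namespace P5180

/-- the degeneration of `∑ c_i f_i ^ 2` in the direction `h` -/
noncomputable def Fe {s : ℕ} (A : Finset ℕ) (f : Fin s → ℕ → ℝ) (c : Fin s → ℝ) (h : A → ℝ) (ε : ℝ) :
    ℝ[X] :=
  ∑ i, C (c i) * (∑ a : A, C (f i a * ε ^ h a) * X ^ (a : ℕ)) ^ 2

open scoped Classical in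
/-- extension by zero -/
noncomputable def ext0 {A : Finset ℕ} (h : A → ℝ) (a : ℕ) : ℝ := if ha : a ∈ A then h ⟨a, ha⟩ else 0

theorem ext0_coe {A : Finset ℕ} (h : A → ℝ) (a : A) : ext0 h a = h a := by
  unfold ext0
  rw [dif_pos a.2]

theorem Qi_of_li {A : Finset ℕ} {h : A → ℝ} (hh : LinearIndependent ℚ h) : Qi A (ext0 h) := by
  intro k hk a ha
  rw [Fintype.linearIndependent_iff] at hh
  have h2 : ∑ a : A, (k a : ℚ) • h a = ∑ a ∈ A, (k a : ℝ) * ext0 h a := by
    rw [← Finset.sum_coe_sort A (fun a => (k a : ℝ) * ext0 h a)]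
    refine Finset.sum_congr rfl fun a _ => ?_
    rw [ext0_coe, Rat.smul_def]
    push_cast
    rfl
  have h1 := hh (fun a => (k a : ℚ)) (h2.trans hk) ⟨a, ha⟩
  exact_mod_cast h1

theorem eval_Fe {s : ℕ} (A : Finset ℕ) (f : Fin s → ℕ → ℝ) (c : Fin s → ℝ) (h : A → ℝ) {ε : ℝ}
    (hε : 0 < ε) (x : ℝ) : (Fe A f c h ε).eval x =
      ∑ i, c i * (∑ a ∈ A, f i a * Real.exp (-(-Real.log ε) * ext0 h a) * x ^ a) ^ 2 := by
  unfold Fe
  rw [eval_finsetSum]
  refine Finset.sum_congr rfl fun i _ => ?_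
  rw [eval_mul, eval_C, eval_pow, eval_finsetSum]
  have h1 : ∑ a : A, (C (f i a * ε ^ h a) * X ^ (a : ℕ) : ℝ[X]).eval x =
      ∑ a ∈ A, f i a * Real.exp (-(-Real.log ε) * ext0 h a) * x ^ a := by
    rw [← Finset.sum_coe_sort A]
    refine Finset.sum_congr rfl fun a _ => ?_
    rw [eval_mul, eval_C, eval_pow, eval_X, ext0_coe, neg_neg, Real.rpow_def_of_pos hε]
  rw [h1]

theorem pos_roots {s : ℕ} (A : Finset ℕ) (f : Fin s → ℕ → ℝ) (c : Fin s → ℝ) (h : A → ℝ)
    (hh : LinearIndependent ℚ h) : ∀ᶠ ε in 𝓝[>] (0 : ℝ), Fe A f c h ε = 0 ∨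
      ∀ Z : Finset ℝ, (∀ z ∈ Z, 0 < z ∧ (Fe A f c h ε).eval z = 0) →
        Z.card ≤ 2 * (s * (2 * A.card - 1)) := by
  obtain ⟨T0, hT0⟩ := pos_bound A f c (ext0 h) (Qi_of_li hh)
  have h1 : ∀ᶠ ε in 𝓝[>] (0 : ℝ), ε < Real.exp (-max T0 1) :=
    nhdsWithin_le_nhds (Iio_mem_nhds (Real.exp_pos _))
  filter_upwards [h1, self_mem_nhdsWithin] with ε h2 hε
  have hε' : 0 < ε := hε
  have h3 : max T0 1 < -Real.log ε := by
    have h4 := Real.log_lt_log hε' h2
    rw [Real.log_exp] at h4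
    linarith
  rcases hT0 (-Real.log ε) ((le_max_left _ _).trans h3.le)
    (lt_of_lt_of_le one_pos ((le_max_right _ _).trans h3.le)) with h4 | h4
  · left
    refine Polynomial.eq_zero_of_infinite_isRoot _ ((Set.Ioi_infinite (0 : ℝ)).mono fun x hx => ?_)
    change (Fe A f c h ε).eval x = 0
    rw [eval_Fe A f c h hε']
    exact h4 x hx
  · right
    intro Z hZ
    refine h4 Z fun z hz => ⟨(hZ z hz).1, ?_⟩
    rw [← eval_Fe A f c h hε']
    exact (hZ z hz).2

theorem eval_neg_Fe {s : ℕ} (A : Finset ℕ) (f : Fin s → ℕ → ℝ) (c : Fin s → ℝ) (h : A → ℝ) (ε x : ℝ) :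
    (Fe A f c h ε).eval (-x) = (Fe A (fun i a => (-1) ^ a * f i a) c h ε).eval x := by
  unfold Fe
  rw [eval_finsetSum, eval_finsetSum]
  refine Finset.sum_congr rfl fun i _ => ?_
  rw [eval_mul, eval_mul, eval_pow, eval_pow, eval_finsetSum, eval_finsetSum]
  have h1 : ∑ a : A, (C (f i a * ε ^ h a) * X ^ (a : ℕ) : ℝ[X]).eval (-x) =
      ∑ a : A, (C ((-1) ^ (a : ℕ) * f i a * ε ^ h a) * X ^ (a : ℕ) : ℝ[X]).eval x := by
    refine Finset.sum_congr rfl fun a _ => ?_
    rw [eval_mul, eval_mul, eval_pow, eval_pow, eval_X, eval_X, eval_C, eval_C, neg_pow]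
    ring
  rw [h1, eval_C, eval_C]

theorem real_roots {s : ℕ} (A : Finset ℕ) (f : Fin s → ℕ → ℝ) (c : Fin s → ℝ) (h : A → ℝ)
    (hh : LinearIndependent ℚ h) : ∀ᶠ ε in 𝓝[>] (0 : ℝ), Fe A f c h ε = 0 ∨
      (Fe A f c h ε).roots.toFinset.card ≤ 8 * s * A.card := by
  classical
  rcases Nat.eq_zero_or_pos s with rfl | hs
  · refine Eventually.of_forall fun ε => Or.inl ?_
    unfold Fe
    simp
  rcases Nat.eq_zero_or_pos A.card with hA | hA
  · refine Eventually.of_forall fun ε => Or.inl ?_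
    have hA' : IsEmpty A := by
      rw [Finset.card_eq_zero] at hA
      subst hA
      exact ⟨fun a => absurd a.2 (Finset.notMem_empty _)⟩
    unfold Fe
    simp
  filter_upwards [pos_roots A f c h hh, pos_roots A (fun i a => (-1) ^ a * f i a) c h hh] with ε h1 h2
  rcases h1 with h1 | h1
  · exact Or.inl h1
  rcases h2 with h2 | h2
  · left
    refine Polynomial.eq_zero_of_infinite_isRoot _ ((Set.infinite_univ (α := ℝ)).mono fun x _ => ?_)
    change (Fe A f c h ε).eval x = 0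
    rw [← neg_neg x, eval_neg_Fe, h2, eval_zero]
  by_cases h0 : Fe A f c h ε = 0
  · exact Or.inl h0
  right
  set R := (Fe A f c h ε).roots.toFinset with hR
  have hmem : ∀ z ∈ R, (Fe A f c h ε).eval z = 0 := by
    intro z hz
    rw [hR, Multiset.mem_toFinset, mem_roots h0] at hz
    exact hz
  have h3 : (R.filter fun z => 0 < z).card ≤ 2 * (s * (2 * A.card - 1)) :=
    h1 _ fun z hz => ⟨(Finset.mem_filter.1 hz).2, hmem z (Finset.mem_filter.1 hz).1⟩
  have h4 : (R.filter fun z => z < 0).card ≤ 2 * (s * (2 * A.card - 1)) := by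
    rw [← Finset.card_image_of_injective _ (neg_injective (G := ℝ))]
    refine h2 _ fun z hz => ?_
    obtain ⟨w, hw, rfl⟩ := Finset.mem_image.1 hz
    rw [Finset.mem_filter] at hw
    refine ⟨by linarith [hw.2], ?_⟩
    rw [← eval_neg_Fe, neg_neg]
    exact hmem w hw.1
  have h5 : R ⊆ (R.filter fun z => 0 < z) ∪ ((R.filter fun z => z < 0) ∪ {0}) := by
    intro z hz
    rw [Finset.mem_union, Finset.mem_union, Finset.mem_filter, Finset.mem_filter,
      Finset.mem_singleton]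
    rcases lt_trichotomy z 0 with h6 | h6 | h6
    · exact Or.inr (Or.inl ⟨hz, h6⟩)
    · exact Or.inr (Or.inr h6)
    · exact Or.inl ⟨hz, h6⟩
  have h6 := (Finset.card_le_card h5).trans ((Finset.card_union_le _ _).trans
    (Nat.add_le_add_left (Finset.card_union_le _ _) _))
  rw [Finset.card_singleton] at h6
  obtain ⟨m, hm⟩ : ∃ m, A.card = m + 1 := ⟨A.card - 1, by omega⟩
  obtain ⟨k, rfl⟩ : ∃ k, s = k + 1 := ⟨s - 1, by omega⟩
  rw [hm] at h3 h4 ⊢
  have h7 : 2 * (m + 1) - 1 = 2 * m + 1 := by omega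
  rw [h7] at h3 h4
  nlinarith

theorem ae_li (A : Finset ℕ) : ∀ᵐ h : A → ℝ, LinearIndependent ℚ h := by
  have h1 : ∀ᵐ h : A → ℝ, ∀ g : A → ℚ, ∑ a, g a • h a = 0 → ∀ a, g a = 0 := by
    rw [ae_all_iff]
    intro g
    by_cases hg : ∀ a, g a = 0
    · exact Eventually.of_forall fun h _ => hg
    · push Not at hg
      obtain ⟨b, hb⟩ := hg
      let φ : (A → ℝ) →ₗ[ℝ] ℝ := ∑ a, (g a : ℝ) • LinearMap.proj a
      have hφ : ∀ h : A → ℝ, φ h = ∑ a, g a • h a := by
        intro h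
        simp only [φ, LinearMap.sum_apply, LinearMap.smul_apply, LinearMap.proj_apply, smul_eq_mul,
          Rat.smul_def]
      have hker : LinearMap.ker φ ≠ ⊤ := by
        intro h2
        have h3 : φ (Pi.single b 1) = 0 := by
          rw [← LinearMap.mem_ker, h2]
          trivial
        rw [hφ, Finset.sum_eq_single b] at h3
        · rw [Pi.single_eq_same, Rat.smul_def, mul_one] at h3
          exact hb (by exact_mod_cast h3)
        · intro a _ hab
          rw [Pi.single_eq_of_ne hab, smul_zero]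
        · intro h4
          exact absurd (Finset.mem_univ _) h4
      have h2 := Measure.addHaar_submodule (volume : Measure (A → ℝ)) (LinearMap.ker φ) hker
      rw [ae_iff]
      refine measure_mono_null (fun h hh => ?_) h2
      simp only [Set.mem_ofPred_eq, Classical.not_imp] at hh
      change φ h = 0
      rw [hφ]
      exact hh.1
  filter_upwards [h1] with h hh
  rw [Fintype.linearIndependent_iff]
  exact hh

end P5180
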