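import Mathlib

/-!
# Zeros of exponential sums with a large parameter

`G J C e η T y = ∑ j ∈ J, C j * exp (T * (e j * y - η j))`.  For large `T` the number of zeros is
bounded by the number of tropical roots (the `y` at which the maximum of the `e j * y - η j` is
attained at least twice), counted with the number of maximisers minus one.
-/

open Finset

namespace P5180

variable {ι : Type}

/-- exponential sum -/
noncomputable def G (J : Finset ι) (C e η : ι → ℝ) (T y : ℝ) : ℝ :=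
  ∑ j ∈ J, C j * Real.exp (T * (e j * y - η j))

theorem rolle_count {I : Set ℝ} (hI : I.OrdConnected) {f f' : ℝ → ℝ}
    (hf : ∀ y, HasDerivAt f (f' y) y) (n : ℕ)
    (h : ∀ Z : Finset ℝ, (∀ z ∈ Z, z ∈ I ∧ f' z = 0) → Z.card ≤ n) (Z : Finset ℝ)
    (hZ : ∀ z ∈ Z, z ∈ I ∧ f z = 0) : Z.card ≤ n + 1 := by
  classical
  by_contra hcon
  obtain ⟨k, hk⟩ : ∃ k, Z.card = k + 1 := ⟨Z.card - 1, by omega⟩
  have hkn : n + 1 ≤ k := by omega
  let z : Fin (k + 1) → ℝ := fun i => Z.orderEmbOfFin hk i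
  have hz : StrictMono z := (Z.orderEmbOfFin hk).strictMono
  have hzZ : ∀ i, z i ∈ Z := fun i => Finset.orderEmbOfFin_mem Z hk i
  have hw : ∀ i : Fin k, ∃ w, z i.castSucc < w ∧ w < z i.succ ∧ f' w = 0 := by
    intro i
    have h1 : z i.castSucc < z i.succ := hz Fin.castSucc_lt_succ
    obtain ⟨w, hw, hw'⟩ := exists_hasDerivAt_eq_zero h1
      (fun y _ => (hf y).continuousAt.continuousWithinAt)
      (((hZ _ (hzZ _)).2).trans ((hZ _ (hzZ _)).2).symm) fun y _ => hf y
    exact ⟨w, hw.1, hw.2, hw'⟩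
  choose w hw1 hw2 hw3 using hw
  have hwm : StrictMono w := by
    intro i j hij
    refine (hw2 i).trans (lt_of_le_of_lt ?_ (hw1 j))
    exact hz.monotone (Fin.succ_le_castSucc_iff.2 hij)
  have h1 : (Finset.univ.image w).card ≤ n := by
    refine h _ fun x hx => ?_
    obtain ⟨i, -, rfl⟩ := Finset.mem_image.1 hx
    exact ⟨hI.out (hZ _ (hzZ i.castSucc)).1 (hZ _ (hzZ i.succ)).1 ⟨(hw1 i).le, (hw2 i).le⟩, hw3 i⟩
  rw [Finset.card_image_of_injective _ hwm.injective, Finset.card_univ, Fintype.card_fin] at h1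
  omega

theorem rolle_op {I : Set ℝ} (hI : I.OrdConnected) {f f' : ℝ → ℝ}
    (hf : ∀ y, HasDerivAt f (f' y) y) (l : ℝ) (n : ℕ)
    (h : ∀ Z : Finset ℝ, (∀ z ∈ Z, z ∈ I ∧ f' z - l * f z = 0) → Z.card ≤ n) (Z : Finset ℝ)
    (hZ : ∀ z ∈ Z, z ∈ I ∧ f z = 0) : Z.card ≤ n + 1 := by
  refine rolle_count hI (f := fun y => Real.exp (-l * y) * f y)
    (f' := fun y => Real.exp (-l * y) * (f' y - l * f y)) ?_ n ?_ Z ?_
  · intro y
    have h1 : HasDerivAt (fun y => Real.exp (-l * y)) (Real.exp (-l * y) * (-l)) y := by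
      have h2 : HasDerivAt (fun y : ℝ => -l * y) (-l) y := by
        simpa using (hasDerivAt_id y).const_mul (-l)
      exact h2.exp
    exact (h1.mul (hf y)).congr_deriv (by ring)
  · intro Z hZ
    refine h Z fun z hz => ⟨(hZ z hz).1, ?_⟩
    rcases mul_eq_zero.1 (hZ z hz).2 with h1 | h1
    · exact absurd h1 (Real.exp_pos _).ne'
    · exact h1
  · intro z hz
    refine ⟨(hZ z hz).1, ?_⟩
    rw [(hZ z hz).2, mul_zero]

theorem hasDerivAt_G (J : Finset ι) (C e η : ι → ℝ) (T y : ℝ) :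
    HasDerivAt (G J C e η T) (∑ j ∈ J, C j * (Real.exp (T * (e j * y - η j)) * (T * e j))) y := by
  have h : ∀ j ∈ J, HasDerivAt (fun y => C j * Real.exp (T * (e j * y - η j)))
      (C j * (Real.exp (T * (e j * y - η j)) * (T * e j))) y := by
    intro j _
    have h1 : HasDerivAt (fun y : ℝ => T * (e j * y - η j)) (T * e j) y := by
      have h2 := (((hasDerivAt_id y).const_mul (e j)).sub_const (η j)).const_mul T
      simpa using h2
    exact h1.exp.const_mul (C j)
  exact HasDerivAt.fun_sum h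

/-- local count -/
theorem local_zeros (J : Finset ι) (e η : ι → ℝ) (I : Set ℝ) (hI : I.OrdConnected) (κ : ℝ)
    (hκ : 0 < κ) (n : ℕ) : ∀ (S : Finset ι), S ⊆ J → S.card = n + 1 →
    (∀ i ∈ S, ∀ j ∈ S, e i = e j → i = j) → ∀ C : ι → ℝ, (∀ i ∈ S, C i ≠ 0) →
    (∀ i ∈ J, i ∉ S → C i ≠ 0 → ∀ j ∈ S, ∀ y ∈ I, e i * y - η i ≤ e j * y - η j - κ) →
    ∃ T0 : ℝ, ∀ T ≥ T0, ∀ Z : Finset ℝ, (∀ z ∈ Z, z ∈ I ∧ G J C e η T z = 0) → Z.card ≤ n := by
  classical
  induction n with
  | zero =>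
    intro S hSJ hS _ C hC hdom
    obtain ⟨j, rfl⟩ := Finset.card_eq_one.1 hS
    have hj : j ∈ J := hSJ (Finset.mem_singleton_self j)
    have hCj : 0 < |C j| := abs_pos.2 (hC j (Finset.mem_singleton_self j))
    have h1 : Filter.Tendsto (fun T : ℝ => Real.exp (-(κ * T)) * ∑ i ∈ J, |C i|) Filter.atTop
        (nhds (0 * ∑ i ∈ J, |C i|)) := by
      refine Filter.Tendsto.mul_const _ ?_
      refine Real.tendsto_exp_neg_atTop_nhds_zero.comp ?_
      exact Filter.tendsto_id.const_mul_atTop hκ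
    rw [zero_mul] at h1
    obtain ⟨T1, hT1⟩ := Filter.eventually_atTop.1 (h1.eventually_lt_const hCj)
    refine ⟨max T1 0, fun T hT Z hZ => ?_⟩
    rw [Nat.le_zero, Finset.card_eq_zero, Finset.eq_empty_iff_forall_notMem]
    intro z hz
    obtain ⟨hzI, hz0⟩ := hZ z hz
    have hT0 : 0 ≤ T := (le_max_right _ _).trans hT
    have h2 := hT1 T ((le_max_left _ _).trans hT)
    unfold G at hz0
    rw [← Finset.add_sum_erase _ _ hj] at hz0
    have h3 : |C j| * Real.exp (T * (e j * z - η j)) ≤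
        ∑ i ∈ J.erase j, |C i| * Real.exp (T * (e i * z - η i)) := by
      have h4 : C j * Real.exp (T * (e j * z - η j)) =
          -∑ i ∈ J.erase j, C i * Real.exp (T * (e i * z - η i)) := by linarith
      have h5 := congrArg abs h4
      rw [abs_mul, Real.abs_exp, abs_neg] at h5
      rw [h5]
      refine (Finset.abs_sum_le_sum_abs _ _).trans (le_of_eq ?_)
      refine Finset.sum_congr rfl fun i _ => ?_
      rw [abs_mul, Real.abs_exp]
    have h6 : ∑ i ∈ J.erase j, |C i| * Real.exp (T * (e i * z - η i)) ≤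
        ∑ i ∈ J.erase j, |C i| * (Real.exp (T * (e j * z - η j)) * Real.exp (-(κ * T))) := by
      refine Finset.sum_le_sum fun i hi => ?_
      rw [Finset.mem_erase] at hi
      by_cases hCi : C i = 0
      · rw [hCi]; simp
      · refine mul_le_mul_of_nonneg_left ?_ (abs_nonneg _)
        rw [← Real.exp_add]
        refine Real.exp_le_exp.2 ?_
        have h7 := hdom i hi.2 (by simpa using hi.1) hCi j (Finset.mem_singleton_self j) z hzI
        have h8 := mul_le_mul_of_nonneg_left h7 hT0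
        linarith
    have h9 : ∑ i ∈ J.erase j, |C i| * (Real.exp (T * (e j * z - η j)) * Real.exp (-(κ * T))) ≤
        Real.exp (T * (e j * z - η j)) * (Real.exp (-(κ * T)) * ∑ i ∈ J, |C i|) := by
      rw [← Finset.sum_mul, mul_comm, mul_assoc]
      refine mul_le_mul_of_nonneg_left ?_ (Real.exp_pos _).le
      refine mul_le_mul_of_nonneg_left ?_ (Real.exp_pos _).le
      exact Finset.sum_le_sum_of_subset_of_nonneg (Finset.erase_subset _ _) fun i _ _ => abs_nonneg _
    have h10 := (h3.trans h6).trans h9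
    rw [mul_comm] at h10
    have h11 := le_of_mul_le_mul_left h10 (Real.exp_pos _)
    exact absurd h2 (not_lt.2 h11)
  | succ n ih =>
    intro S hSJ hS hinj C hC hdom
    obtain ⟨j, hj⟩ : S.Nonempty := Finset.card_pos.1 (by omega)
    have hS' : (S.erase j).card = n + 1 := by
      rw [Finset.card_erase_of_mem hj, hS]
      rfl
    obtain ⟨T0, hT0⟩ := ih (S.erase j) ((Finset.erase_subset _ _).trans hSJ) hS'
      (fun i hi k hk h => hinj i (Finset.mem_of_mem_erase hi) k (Finset.mem_of_mem_erase hk) h)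
      (fun i => C i * (e i - e j))
      (fun i hi => mul_ne_zero (hC i (Finset.mem_of_mem_erase hi)) (sub_ne_zero.2 fun h =>
        (Finset.mem_erase.1 hi).1 (hinj i (Finset.mem_of_mem_erase hi) j hj h)))
      (fun i hi hiS hCi k hk y hy => by
        have h1 : i ≠ j := by
          rintro rfl
          simp at hCi
        refine hdom i hi (fun h => hiS (Finset.mem_erase.2 ⟨h1, h⟩)) (left_ne_zero_of_mul hCi) k
          (Finset.mem_of_mem_erase hk) y hy)
    refine ⟨max T0 1, fun T hT Z hZ => ?_⟩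
    have hT1 : 0 < T := lt_of_lt_of_le one_pos ((le_max_right _ _).trans hT)
    refine rolle_op hI (hasDerivAt_G J C e η T) (T * e j) n ?_ Z hZ
    intro Z' hZ'
    refine hT0 T ((le_max_left _ _).trans hT) Z' fun z hz => ⟨(hZ' z hz).1, ?_⟩
    have h1 := (hZ' z hz).2
    have h2 : ∑ i ∈ J, C i * (Real.exp (T * (e i * z - η i)) * (T * e i)) - T * e j * G J C e η T z =
        T * G J (fun i => C i * (e i - e j)) e η T z := by
      unfold G
      rw [Finset.mul_sum, Finset.mul_sum, ← Finset.sum_sub_distrib]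
      refine Finset.sum_congr rfl fun i _ => ?_
      ring
    rw [h2] at h1
    exact (mul_eq_zero.1 h1).resolve_left hT1.ne'

/-- the maximisers at `y` -/
noncomputable def amax (J : Finset ι) (e η : ι → ℝ) (y : ℝ) : Finset ι :=
  open scoped Classical in J.filter fun i => ∀ j ∈ J, e j * y - η j ≤ e i * y - η i

theorem mem_amax {J : Finset ι} {e η : ι → ℝ} {y : ℝ} {i : ι} :
    i ∈ amax J e η y ↔ i ∈ J ∧ ∀ j ∈ J, e j * y - η j ≤ e i * y - η i := by
  classical
  unfold amax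
  rw [Finset.mem_filter]

private theorem exists_pos {α : Type} (s : Finset α) (P : α → ℝ → Prop)
    (hm : ∀ a κ κ', P a κ → 0 < κ' → κ' ≤ κ → P a κ') (h : ∀ a ∈ s, ∃ κ > 0, P a κ) :
    ∃ κ > 0, ∀ a ∈ s, P a κ := by
  classical
  induction s using Finset.induction_on with
  | empty => exact ⟨1, one_pos, by simp⟩
  | insert a s ha ih =>
    obtain ⟨κ, hκ, h1⟩ := ih fun b hb => h b (Finset.mem_insert_of_mem hb)
    obtain ⟨κ', hκ', h2⟩ := h a (Finset.mem_insert_self a s)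
    refine ⟨min κ κ', lt_min hκ hκ', fun b hb => ?_⟩
    rcases Finset.mem_insert.1 hb with rfl | hb
    · exact hm _ _ _ h2 (lt_min hκ hκ') (min_le_right _ _)
    · exact hm _ _ _ (h1 b hb) (lt_min hκ hκ') (min_le_left _ _)

/-- the local bound near a point -/
theorem near (J : Finset ι) (C e η : ι → ℝ) (hC : ∀ i ∈ J, C i ≠ 0)
    (hinj : ∀ i ∈ J, ∀ j ∈ J, e i = e j → η i = η j → i = j) (hJ : J.Nonempty) (y0 : ℝ) :
    ∃ δ > 0, ∃ T0 : ℝ, ∀ T ≥ T0, ∀ Z : Finset ℝ,
      (∀ z ∈ Z, z ∈ Metric.ball y0 δ ∧ G J C e η T z = 0) → Z.card ≤ (amax J e η y0).card - 1 := by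
  classical
  obtain ⟨m, hm, hm'⟩ := Finset.exists_max_image J (fun i => e i * y0 - η i) hJ
  have hne : (amax J e η y0).Nonempty := ⟨m, mem_amax.2 ⟨hm, hm'⟩⟩
  have hval : ∀ i ∈ amax J e η y0, ∀ j ∈ amax J e η y0, e i * y0 - η i = e j * y0 - η j := by
    intro i hi j hj
    exact le_antisymm ((mem_amax.1 hj).2 i (mem_amax.1 hi).1) ((mem_amax.1 hi).2 j (mem_amax.1 hj).1)
  have hlt : ∀ i ∈ J, i ∉ amax J e η y0 → ∀ j ∈ amax J e η y0, e i * y0 - η i < e j * y0 - η j := by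
    intro i hi hi' j hj
    refine lt_of_le_of_ne ((mem_amax.1 hj).2 i hi) fun h => hi' (mem_amax.2 ⟨hi, fun k hk => ?_⟩)
    rw [h]
    exact (mem_amax.1 hj).2 k hk
  obtain ⟨κ, hκ, h1⟩ := exists_pos (J ×ˢ J) (fun p κ => p.1 ∉ amax J e η y0 → p.2 ∈ amax J e η y0 →
      e p.1 * y0 - η p.1 < e p.2 * y0 - η p.2 - κ)
    (fun p κ κ' h _ h' h3 h4 => by have := h h3 h4; linarith) (fun p hp => by
      rw [Finset.mem_product] at hp
      by_cases h3 : p.1 ∈ amax J e η y0
      · exact ⟨1, one_pos, fun h => absurd h3 h⟩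
      · by_cases h4 : p.2 ∈ amax J e η y0
        · have h5 := hlt p.1 hp.1 h3 p.2 h4
          exact ⟨(e p.2 * y0 - η p.2 - (e p.1 * y0 - η p.1)) / 2, by linarith, fun _ _ => by linarith⟩
        · exact ⟨1, one_pos, fun _ h => absurd h h4⟩)
  have h2 : ∀ᶠ y in nhds y0, ∀ p ∈ J ×ˢ J, p.1 ∉ amax J e η y0 → p.2 ∈ amax J e η y0 →
      e p.1 * y - η p.1 < e p.2 * y - η p.2 - κ := by
    rw [Filter.eventually_all_finset]
    intro p hp
    by_cases h3 : p.1 ∈ amax J e η y0
    · exact Filter.Eventually.of_forall fun y h => absurd h3 h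
    · by_cases h4 : p.2 ∈ amax J e η y0
      · have h5 := h1 p hp h3 h4
        have h6 : ContinuousAt (fun y => e p.1 * y - η p.1) y0 := by fun_prop
        have h7 : ContinuousAt (fun y => e p.2 * y - η p.2 - κ) y0 := by fun_prop
        exact (h6.eventually_lt h7 h5).mono fun y hy _ _ => hy
      · exact Filter.Eventually.of_forall fun y _ h => absurd h h4
  obtain ⟨δ, hδ, h3⟩ := Metric.eventually_nhds_iff_ball.1 h2
  obtain ⟨n, hn⟩ : ∃ n, (amax J e η y0).card = n + 1 :=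
    ⟨(amax J e η y0).card - 1, by have := hne.card_pos; omega⟩
  have hoc : (Metric.ball y0 δ).OrdConnected := by
    rw [Real.ball_eq_Ioo]
    exact Set.ordConnected_Ioo
  obtain ⟨T0, hT0⟩ := local_zeros J e η (Metric.ball y0 δ) hoc κ hκ n (amax J e η y0)
    (fun i hi => (mem_amax.1 hi).1) hn
    (fun i hi j hj h => hinj i (mem_amax.1 hi).1 j (mem_amax.1 hj).1 h (by
      have h4 := hval i hi j hj
      rw [h] at h4
      linarith)) C (fun i hi => hC i (mem_amax.1 hi).1)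
    (fun i hi hi' _ j hj y hy => (h3 y hy (i, j) (Finset.mem_product.2 ⟨hi, (mem_amax.1 hj).1⟩) hi' hj).le)
  refine ⟨δ, hδ, T0, fun T hT Z hZ => ?_⟩
  rw [hn]
  exact hT0 T hT Z hZ

/-- domination near `+∞` -/
theorem top_dom (J : Finset ι) (e η : ι → ℝ)
    (hinj : ∀ i ∈ J, ∀ j ∈ J, e i = e j → η i = η j → i = j) (hJ : J.Nonempty) :
    ∃ i ∈ J, ∃ κ > 0, ∃ Y : ℝ, ∀ j ∈ J, j ≠ i → ∀ y ≥ Y, e j * y - η j ≤ e i * y - η i - κ := by
  classical
  obtain ⟨i, hi, hi'⟩ := Finset.exists_max_image J (fun i => toLex (e i, -η i)) hJ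
  refine ⟨i, hi, ?_⟩
  have h1 : ∀ j ∈ J, j ≠ i → e j < e i ∨ (e j = e i ∧ η i < η j) := by
    intro j hj hji
    have h2 := hi' j hj
    rw [Prod.Lex.toLex_le_toLex] at h2
    simp only at h2
    rcases h2 with h2 | ⟨h2, h3⟩
    · exact Or.inl h2
    · refine Or.inr ⟨h2, lt_of_le_of_ne (by linarith) fun h4 => hji (hinj j hj i hi h2 h4.symm)⟩
  obtain ⟨κ, hκ, h2⟩ := exists_pos J (fun j κ => j ≠ i → ∀ᶠ y : ℝ in Filter.atTop,
      e j * y - η j ≤ e i * y - η i - κ)
    (fun j κ κ' h _ h' h3 => (h h3).mono fun y hy => by linarith) (fun j hj => by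
      by_cases hji : j = i
      · exact ⟨1, one_pos, fun h => absurd hji h⟩
      · rcases h1 j hj hji with h3 | ⟨h3, h4⟩
        · refine ⟨1, one_pos, fun _ => ?_⟩
          have h5 : Filter.Tendsto (fun y : ℝ => (e i - e j) * y) Filter.atTop Filter.atTop :=
            Filter.tendsto_id.const_mul_atTop (by linarith)
          exact (h5.eventually_ge_atTop (1 + η i - η j)).mono fun y hy => by linarith
        · refine ⟨η j - η i, by linarith, fun _ => Filter.Eventually.of_forall fun y => ?_⟩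
          rw [h3]
          linarith)
  have h3 : ∀ᶠ y : ℝ in Filter.atTop, ∀ j ∈ J, j ≠ i → e j * y - η j ≤ e i * y - η i - κ := by
    rw [Filter.eventually_all_finset]
    intro j hj
    by_cases hji : j = i
    · exact Filter.Eventually.of_forall fun y h => absurd hji h
    · exact (h2 j hj hji).mono fun y hy _ => hy
  obtain ⟨Y, hY⟩ := Filter.eventually_atTop.1 h3
  exact ⟨κ, hκ, Y, fun j hj hji y hy => hY y hy j hj hji⟩

/-- no zeros near `+∞` -/
theorem top_zeros (J : Finset ι) (C e η : ι → ℝ) (hC : ∀ i ∈ J, C i ≠ 0)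
    (hinj : ∀ i ∈ J, ∀ j ∈ J, e i = e j → η i = η j → i = j) (hJ : J.Nonempty) :
    ∃ Y T0 : ℝ, ∀ T ≥ T0, ∀ z ≥ Y, G J C e η T z ≠ 0 := by
  classical
  obtain ⟨i, hi, κ, hκ, Y, hY⟩ := top_dom J e η hinj hJ
  obtain ⟨T0, hT0⟩ := local_zeros J e η (Set.Ici Y) Set.ordConnected_Ici κ hκ 0 {i}
    (by simpa using hi) (by simp) (by simp) C (by simpa using hC i hi)
    (fun j hj hji _ k hk y hy => by
      rw [Finset.mem_singleton] at hk hji
      subst hk
      exact hY j hj hji y hy)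
  refine ⟨Y, T0, fun T hT z hz h => ?_⟩
  have h1 := hT0 T hT {z} (by simpa using ⟨hz, h⟩)
  simp at h1

/-- the global bound -/
theorem global_zeros (J : Finset ι) (C e η : ι → ℝ) (hC : ∀ i ∈ J, C i ≠ 0)
    (hinj : ∀ i ∈ J, ∀ j ∈ J, e i = e j → η i = η j → i = j) (hJ : J.Nonempty) (N : ℕ)
    (hB : ∀ B : Finset ℝ, (∀ y ∈ B, 2 ≤ (amax J e η y).card) → B.card ≤ N)
    (h3 : ∀ y, (amax J e η y).card ≤ 3) :
    ∃ T0 : ℝ, ∀ T ≥ T0, ∀ Z : Finset ℝ, (∀ z ∈ Z, G J C e η T z = 0) → Z.card ≤ 2 * N := by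
  classical
  obtain ⟨Y1, T1, h1⟩ := top_zeros J C e η hC hinj hJ
  obtain ⟨Y2, T2, h2⟩ := top_zeros J C (fun i => -e i) η hC
    (fun i hi j hj h => hinj i hi j hj (neg_inj.1 h)) hJ
  have h2' : ∀ T ≥ T2, ∀ z ≤ -Y2, G J C e η T z ≠ 0 := by
    intro T hT z hz h
    refine h2 T hT (-z) (by linarith) ?_
    rw [← h]
    unfold G
    refine Finset.sum_congr rfl fun i _ => ?_
    simp
  choose δ hδ T0 hT0 using near J C e η hC hinj hJ
  obtain ⟨t, -, ht⟩ := (isCompact_Icc (a := -Y2) (b := Y1)).elim_nhds_subcover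
    (fun y => Metric.ball y (δ y)) fun y _ => Metric.ball_mem_nhds y (hδ y)
  have hTt : ∃ T3 : ℝ, ∀ c ∈ t, T0 c ≤ T3 := by
    obtain ⟨T3, hT3⟩ := (t.image T0).bddAbove
    exact ⟨T3, fun c hc => hT3 (by simpa using ⟨c, hc, rfl⟩)⟩
  obtain ⟨T3, hT3⟩ := hTt
  refine ⟨max (max T1 T2) T3, fun T hT Z hZ => ?_⟩
  have hTa : T1 ≤ T := ((le_max_left _ _).trans (le_max_left _ _)).trans hT
  have hTb : T2 ≤ T := ((le_max_right _ _).trans (le_max_left _ _)).trans hT
  have hTc : ∀ c ∈ t, T0 c ≤ T := fun c hc => (hT3 c hc).trans ((le_max_right _ _).trans hT)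
  have hsub : Z ⊆ t.biUnion fun c => Z.filter fun z => z ∈ Metric.ball c (δ c) := by
    intro z hz
    have hz0 := hZ z hz
    have h4 : z ∈ Set.Icc (-Y2) Y1 := by
      constructor
      · by_contra h5
        exact h2' T hTb z (by linarith) hz0
      · by_contra h5
        exact h1 T hTa z (by linarith) hz0
    obtain ⟨c, hc, hzc⟩ := Set.mem_iUnion₂.1 (ht h4)
    exact Finset.mem_biUnion.2 ⟨c, hc, Finset.mem_filter.2 ⟨hz, hzc⟩⟩
  have h4 : Z.card ≤ ∑ c ∈ t, ((amax J e η c).card - 1) := by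
    refine (Finset.card_le_card hsub).trans (Finset.card_biUnion_le.trans ?_)
    refine Finset.sum_le_sum fun c hc => ?_
    refine hT0 c T (hTc c hc) _ fun z hz => ?_
    rw [Finset.mem_filter] at hz
    exact ⟨hz.2, hZ z hz.1⟩
  have h5 : ∑ c ∈ t, ((amax J e η c).card - 1) ≤
      ∑ c ∈ t, if 2 ≤ (amax J e η c).card then 2 else 0 := by
    refine Finset.sum_le_sum fun c _ => ?_
    have := h3 c
    split_ifs <;> omega
  have h6 : ∑ c ∈ t, (if 2 ≤ (amax J e η c).card then 2 else 0) =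
      (t.filter fun c => 2 ≤ (amax J e η c).card).card * 2 := by
    rw [← Finset.sum_filter, Finset.sum_const, smul_eq_mul]
  have h7 := hB (t.filter fun c => 2 ≤ (amax J e η c).card) fun y hy => (Finset.mem_filter.1 hy).2
  omega

end P5180
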