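import Pool.Agent.Lib_MP_5180ba_gd.Comb
import Pool.Agent.Lib_MP_5180ba_gd.Conv
import Pool.Agent.Lib_MP_5180ba_gd.Zeros

/-!
# Positive zeros of generic degenerations of sums of squares
-/

open Finset

namespace P5180

/-- multiplicity of `a` in the pair `p` -/
def mu (p : ℕ × ℕ) (a : ℕ) : ℤ := (if p.1 = a then 1 else 0) + (if p.2 = a then 1 else 0)

private theorem mu_cases (p : ℕ × ℕ) (a : ℕ) : mu p a = 0 ∨ mu p a = 1 ∨ mu p a = 2 := by
  unfold mu
  split_ifs <;> simp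

private theorem mu_ne {p : ℕ × ℕ} {a : ℕ} : mu p a ≠ 0 ↔ p.1 = a ∨ p.2 = a := by
  unfold mu
  split_ifs with h1 h2 h2 <;> simp [h1, h2]

private theorem mu_two {p : ℕ × ℕ} {a : ℕ} : mu p a = 2 ↔ p.1 = a ∧ p.2 = a := by
  unfold mu
  split_ifs with h1 h2 h2 <;> simp [h1, h2]

private theorem mu_inj {A : Finset ℕ} {p q : ℕ × ℕ} (hp : p.1 ∈ A ∧ p.2 ∈ A ∧ p.1 ≤ p.2)
    (hq : q.1 ∈ A ∧ q.2 ∈ A ∧ q.1 ≤ q.2) (h : ∀ a ∈ A, mu p a = mu q a) : p = q := by
  have h1 : q.1 = p.1 ∨ q.2 = p.1 := mu_ne.1 (by rw [← h _ hp.1]; exact mu_ne.2 (Or.inl rfl))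
  have h2 : q.1 = p.2 ∨ q.2 = p.2 := mu_ne.1 (by rw [← h _ hp.2.1]; exact mu_ne.2 (Or.inr rfl))
  have h3 : p.1 = q.1 ∨ p.2 = q.1 := mu_ne.1 (by rw [h _ hq.1]; exact mu_ne.2 (Or.inl rfl))
  have h4 : p.1 = q.2 ∨ p.2 = q.2 := mu_ne.1 (by rw [h _ hq.2.1]; exact mu_ne.2 (Or.inr rfl))
  have h5 := hp.2.2
  have h6 := hq.2.2
  refine Prod.ext ?_ ?_ <;> omega

/-- rational independence of the numbers `h a`, `a ∈ A` -/
def Qi (A : Finset ℕ) (h : ℕ → ℝ) : Prop :=
  ∀ k : ℕ → ℤ, ∑ a ∈ A, (k a : ℝ) * h a = 0 → ∀ a ∈ A, k a = 0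

private theorem sum_mu {A : Finset ℕ} (h : ℕ → ℝ) {p : ℕ × ℕ} (hp : p.1 ∈ A ∧ p.2 ∈ A) :
    ∑ a ∈ A, (mu p a : ℝ) * h a = h p.1 + h p.2 := by
  have h1 : ∀ a ∈ A, (mu p a : ℝ) * h a = (if p.1 = a then h a else 0) + (if p.2 = a then h a else 0) := by
    intro a _
    unfold mu
    push_cast
    split_ifs <;> ring
  rw [Finset.sum_congr rfl h1, Finset.sum_add_distrib, Finset.sum_ite_eq, Finset.sum_ite_eq,
    if_pos hp.1, if_pos hp.2]

section
variable {s : ℕ} (A : Finset ℕ) (f : Fin s → ℕ → ℝ) (c : Fin s → ℝ) (h : ℕ → ℝ)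

/-- the Gram matrix -/
def gram (a b : ℕ) : ℝ := ∑ i, (c i * f i a) * f i b

theorem gram_comm (a b : ℕ) : gram f c a b = gram f c b a := by
  unfold gram
  exact Finset.sum_congr rfl fun i _ => by ring

/-- the index set -/
noncomputable def JJ : Finset (ℕ × ℕ) :=
  open scoped Classical in (A ×ˢ A).filter fun p => p.1 ≤ p.2 ∧ gram f c p.1 p.2 ≠ 0

theorem mem_JJ {p : ℕ × ℕ} : p ∈ JJ A f c ↔ (p.1 ∈ A ∧ p.2 ∈ A) ∧ p.1 ≤ p.2 ∧ gram f c p.1 p.2 ≠ 0 := by
  classical
  unfold JJ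
  rw [Finset.mem_filter, Finset.mem_product]

/-- exponent -/
def ee (p : ℕ × ℕ) : ℝ := (p.1 : ℝ) + p.2

/-- height -/
def hh (p : ℕ × ℕ) : ℝ := h p.1 + h p.2

/-- coefficient -/
def CC (p : ℕ × ℕ) : ℝ := (if p.1 = p.2 then 1 else 2) * gram f c p.1 p.2

theorem JJ_inj (hQ : Qi A h) : ∀ p ∈ JJ A f c, ∀ q ∈ JJ A f c, ee p = ee q → hh h p = hh h q → p = q := by
  intro p hp q hq _ h2
  rw [mem_JJ] at hp hq
  refine mu_inj (A := A) ⟨hp.1.1, hp.1.2, hp.2.1⟩ ⟨hq.1.1, hq.1.2, hq.2.1⟩ fun a ha => ?_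
  have h3 := hQ (fun a => mu p a - mu q a) (by
    push_cast
    simp only [sub_mul]
    rw [Finset.sum_sub_distrib, sum_mu h hp.1, sum_mu h hq.1]
    unfold hh at h2
    linarith) a ha
  simpa [sub_eq_zero] using h3

theorem amax_card (hQ : Qi A h) (y : ℝ) : (amax (JJ A f c) ee (hh h) y).card ≤ 3 := by
  classical
  by_cases h2 : (amax (JJ A f c) ee (hh h) y).card ≤ 1
  · omega
  obtain ⟨p, hp, q, hq, hpq⟩ := Finset.one_lt_card.1 (not_le.1 h2)
  have hJ : ∀ r ∈ amax (JJ A f c) ee (hh h) y, (r.1 ∈ A ∧ r.2 ∈ A) ∧ r.1 ≤ r.2 ∧ gram f c r.1 r.2 ≠ 0 :=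
    fun r hr => (mem_JJ A f c).1 (mem_amax.1 hr).1
  have hval : ∀ r ∈ amax (JJ A f c) ee (hh h) y, ∀ t ∈ amax (JJ A f c) ee (hh h) y,
      ee r * y - hh h r = ee t * y - hh h t := fun r hr t ht =>
    le_antisymm ((mem_amax.1 ht).2 r (mem_amax.1 hr).1) ((mem_amax.1 hr).2 t (mem_amax.1 ht).1)
  obtain ⟨a, ha, hne⟩ : ∃ a ∈ A, mu p a ≠ mu q a := by
    by_contra hcon
    push Not at hcon
    exact hpq (mu_inj (A := A) ⟨(hJ p hp).1.1, (hJ p hp).1.2, (hJ p hp).2.1⟩
      ⟨(hJ q hq).1.1, (hJ q hq).1.2, (hJ q hq).2.1⟩ hcon)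
  -- three distinct maximisers
  have key : ∀ r ∈ amax (JJ A f c) ee (hh h) y, ∀ t ∈ amax (JJ A f c) ee (hh h) y,
      ∀ u ∈ amax (JJ A f c) ee (hh h) y, r ≠ t → mu r a = mu t a → mu u a = mu r a := by
    intro r hr t ht u hu hrt hmu
    have hk := hQ (fun a => ((t.1 : ℤ) + t.2 - (u.1 + u.2)) * mu r a +
      (((u.1 : ℤ) + u.2 - (r.1 + r.2)) * mu t a + ((r.1 : ℤ) + r.2 - (t.1 + t.2)) * mu u a)) (by
      push_cast
      simp only [add_mul, mul_assoc]
      rw [Finset.sum_add_distrib, Finset.sum_add_distrib, ← Finset.mul_sum, ← Finset.mul_sum,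
        ← Finset.mul_sum, sum_mu h (hJ r hr).1, sum_mu h (hJ t ht).1, sum_mu h (hJ u hu).1]
      have h3 := hval r hr t ht
      have h4 := hval r hr u hu
      unfold ee hh at h3 h4
      have h5 : h t.1 + h t.2 = h r.1 + h r.2 + ((t.1 : ℝ) + t.2 - (r.1 + r.2)) * y := by linarith
      have h6 : h u.1 + h u.2 = h r.1 + h r.2 + ((u.1 : ℝ) + u.2 - (r.1 + r.2)) * y := by linarith
      rw [h5, h6]
      ring) a ha
    rw [← hmu] at hk
    have h7 : ((r.1 : ℤ) + r.2 - (t.1 + t.2)) * (mu u a - mu r a) = 0 := by linarith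
    rcases mul_eq_zero.1 h7 with h8 | h8
    · exfalso
      have h9 : ee r = ee t := by
        unfold ee
        have h10 : (r.1 : ℤ) + r.2 = t.1 + t.2 := by linarith
        exact_mod_cast h10
      refine hrt (JJ_inj A f c h hQ r (mem_amax.1 hr).1 t (mem_amax.1 ht).1 h9 ?_)
      have h10 := hval r hr t ht
      rw [h9] at h10
      linarith
    · linarith
  have hinj : Set.InjOn (fun r => mu r a) (amax (JJ A f c) ee (hh h) y) := by
    intro r hr t ht hrt
    by_contra hne'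
    have h3 := key r hr t ht p hp hne' hrt
    have h4 := key r hr t ht q hq hne' hrt
    exact hne (h3.trans h4.symm)
  have h3 : (amax (JJ A f c) ee (hh h) y).card ≤ ({0, 1, 2} : Finset ℤ).card := by
    refine Finset.card_le_card_of_injOn _ ?_ hinj
    intro r _
    rcases mu_cases r a with h4 | h4 | h4 <;> simp [h4]
  exact h3.trans Finset.card_le_three

/-- the tropical roots -/
theorem card_B (hQ : Qi A h) (B : Finset ℝ)
    (hB : ∀ y ∈ B, 2 ≤ (amax (JJ A f c) ee (hh h) y).card) : B.card ≤ s * (2 * A.card - 1) := by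
  classical
  have hinj := JJ_inj A f c h hQ
  have hex : ∀ y : ℝ, ∃ v : ℕ × ℕ, y ∈ B → v ∈ amax (JJ A f c) ee (hh h) y ∧
      ∀ q ∈ amax (JJ A f c) ee (hh h) y, ee v ≤ ee q := by
    intro y
    by_cases hy : y ∈ B
    · obtain ⟨v, hv, hv'⟩ := Finset.exists_min_image (amax (JJ A f c) ee (hh h) y) ee
        (Finset.card_pos.1 (by have := hB y hy; omega))
      exact ⟨v, fun _ => ⟨hv, hv'⟩⟩
    · exact ⟨(0, 0), fun h => absurd h hy⟩
  choose v hv using hex
  have hlt : ∀ y ∈ B, ∀ q ∈ amax (JJ A f c) ee (hh h) y, q ≠ v y → ee (v y) < ee q := by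
    intro y hy q hq hne
    refine lt_of_le_of_ne ((hv y hy).2 q hq) fun h1 => hne ?_
    refine hinj q (mem_amax.1 hq).1 (v y) (mem_amax.1 (hv y hy).1).1 h1.symm ?_
    have h2 := (mem_amax.1 (hv y hy).1).2 q (mem_amax.1 hq).1
    have h3 := (mem_amax.1 hq).2 (v y) (mem_amax.1 (hv y hy).1).1
    rw [h1] at h2 h3
    linarith
  have hvinj : Set.InjOn v B := by
    have haux : ∀ y0 ∈ B, ∀ y1 ∈ B, y0 < y1 → v y0 ≠ v y1 := by
      intro y0 h0 y1 h1 h01 hvv
      obtain ⟨q, hq, hqv⟩ : ∃ q ∈ amax (JJ A f c) ee (hh h) y0, q ≠ v y0 :=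
        Finset.exists_mem_ne (by have := hB y0 h0; omega) _
      have h2 := hlt y0 h0 q hq hqv
      have h3 := (mem_amax.1 hq).2 (v y0) (mem_amax.1 (hv y0 h0).1).1
      have h4 := (mem_amax.1 (hv y1 h1).1).2 q (mem_amax.1 hq).1
      rw [← hvv] at h4
      have h5 : 0 < (ee q - ee (v y0)) * (y1 - y0) := mul_pos (by linarith) (by linarith)
      nlinarith
    intro y0 h0 y1 h1 hvv
    rcases lt_trichotomy y0 y1 with h2 | h2 | h2
    · exact absurd hvv (haux y0 h0 y1 h1 h2)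
    · exact h2
    · exact absurd hvv.symm (haux y1 h1 y0 h0 h2)
  -- strict visibility
  have hvis : ∀ y ∈ B, ∃ y' : ℝ, ∀ q ∈ JJ A f c, q ≠ v y →
      ee q * y' - hh h q < ee (v y) * y' - hh h (v y) := by
    intro y hy
    have h1 : ∀ᶠ y' : ℝ in nhdsWithin y (Set.Iio y), ∀ q ∈ JJ A f c, q ≠ v y →
        ee q * y' - hh h q < ee (v y) * y' - hh h (v y) := by
      rw [Filter.eventually_all_finset]
      intro q hq
      by_cases hqv : q = v y
      · exact Filter.Eventually.of_forall fun y' h => absurd hqv h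
      by_cases hqa : q ∈ amax (JJ A f c) ee (hh h) y
      · have h2 := hlt y hy q hqa hqv
        filter_upwards [self_mem_nhdsWithin] with y' hy' _
        have h3 := (mem_amax.1 hqa).2 (v y) (mem_amax.1 (hv y hy).1).1
        have h4 := (mem_amax.1 (hv y hy).1).2 q hq
        have hy'' : y' < y := hy'
        have h5 : 0 < (ee q - ee (v y)) * (y - y') := mul_pos (by linarith) (by linarith)
        nlinarith
      · have h2 : ee q * y - hh h q < ee (v y) * y - hh h (v y) := by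
          refine lt_of_le_of_ne ((mem_amax.1 (hv y hy).1).2 q hq) fun h3 => hqa ?_
          refine mem_amax.2 ⟨hq, fun t ht => ?_⟩
          rw [h3]
          exact (mem_amax.1 (hv y hy).1).2 t ht
        have h6 : ContinuousAt (fun y' => ee q * y' - hh h q) y := by fun_prop
        have h7 : ContinuousAt (fun y' => ee (v y) * y' - hh h (v y)) y := by fun_prop
        exact ((h6.eventually_lt h7 h2).filter_mono nhdsWithin_le_nhds).mono fun y' hy' _ => hy'
    exact h1.exists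
  have hcard : B.card = (B.image v).card := (Finset.card_image_of_injOn hvinj).symm
  rw [hcard]
  refine mirsky A s _ (fun w hw => ?_) ?_
  · obtain ⟨y, hy, rfl⟩ := Finset.mem_image.1 hw
    exact ((mem_JJ A f c).1 (mem_amax.1 (hv y hy).1).1).1
  · rintro ⟨g, hg, hg'⟩
    have h1 : ∀ i, ∃ y ∈ B, v y = g i := fun i => by simpa using Finset.mem_image.1 (hg i)
    choose yy hyy hyg using h1
    have hgJ : ∀ i, g i ∈ JJ A f c := fun i => by
      rw [← hyg i]
      exact (mem_amax.1 (hv _ (hyy i)).1).1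
    have h2 : ∀ i, ∃ y' : ℝ, ∀ q ∈ JJ A f c, q ≠ g i →
        ee q * y' - hh h q < ee (g i) * y' - hh h (g i) := by
      intro i
      obtain ⟨y', hy'⟩ := hvis (yy i) (hyy i)
      rw [hyg i] at hy'
      exact ⟨y', hy'⟩
    choose sl hsl using h2
    obtain ⟨H, hH1, hH2, hH3⟩ := exists_H (fun i => ee (g i)) (fun i => hh h (g i)) sl
      ((JJ A f c).image fun q => (ee q, hh h q)) (by
        intro q hq i
        obtain ⟨r, hr, rfl⟩ := Finset.mem_image.1 hq
        by_cases hri : r = g i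
        · left
          simp [hri]
        · right
          have h3 := hsl i r hr hri
          simp only
          linarith)
    refine no_minor (gram f c) (fun i a => c i * f i a) f (fun a b => rfl) (fun i => (g i).1)
      (fun i => (g i).2) h (fun i => ((mem_JJ A f c).1 (hgJ i)).2.2)
      (fun i j => H (((g i).1 : ℝ) + (g j).2)) ?_ ?_ ?_
    · intro i j k l hij hkl
      have h3 : ((g i).1 : ℝ) < (g j).1 := by exact_mod_cast (hg' i j hij).1
      have h4 : ((g l).2 : ℝ) < (g k).2 := by exact_mod_cast (hg' k l hkl).2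
      exact hH3 _ _ _ _ (by linarith) (by linarith) (by ring)
    · intro i j hne
      have hiA := ((mem_JJ A f c).1 (hgJ i)).1
      have hjA := ((mem_JJ A f c).1 (hgJ j)).1
      rcases le_total (g i).1 (g j).2 with h3 | h3
      · have h4 : ((g i).1, (g j).2) ∈ JJ A f c := (mem_JJ A f c).2 ⟨⟨hiA.1, hjA.2⟩, h3, hne⟩
        exact hH1 _ (Finset.mem_image.2 ⟨_, h4, rfl⟩)
      · have h4 : ((g j).2, (g i).1) ∈ JJ A f c :=
          (mem_JJ A f c).2 ⟨⟨hjA.2, hiA.1⟩, h3, by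
            rw [gram_comm]
            exact hne⟩
        have h5 := hH1 _ (Finset.mem_image.2 ⟨_, h4, rfl⟩)
        unfold ee hh at h5
        simp only at h5
        rw [add_comm ((g i).1 : ℝ), add_comm (h (g i).1)]
        exact h5
    · intro i
      exact hH2 i

/-- symmetric double sums -/
theorem sum_symm (g : ℕ → ℕ → ℝ) (hg : ∀ a b, g a b = g b a) :
    ∑ p ∈ A ×ˢ A, g p.1 p.2 =
      ∑ p ∈ (A ×ˢ A).filter (fun p => p.1 ≤ p.2), (if p.1 = p.2 then 1 else 2) * g p.1 p.2 := by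
  classical
  rw [← Finset.sum_filter_add_sum_filter_not (A ×ˢ A) (fun p => p.1 ≤ p.2)]
  have h1 : ∑ p ∈ (A ×ˢ A).filter (fun p => ¬ p.1 ≤ p.2), g p.1 p.2 =
      ∑ p ∈ ((A ×ˢ A).filter (fun p => p.1 ≤ p.2)).filter (fun p => p.1 ≠ p.2), g p.1 p.2 := by
    refine Finset.sum_bij' (fun p _ => (p.2, p.1)) (fun p _ => (p.2, p.1)) ?_ ?_ ?_ ?_ ?_
    · intro p hp
      simp only [Finset.mem_filter, Finset.mem_product] at hp ⊢
      exact ⟨⟨⟨hp.1.2, hp.1.1⟩, by omega⟩, by omega⟩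
    · intro p hp
      simp only [Finset.mem_filter, Finset.mem_product] at hp ⊢
      exact ⟨⟨hp.1.1.2, hp.1.1.1⟩, by omega⟩
    · intro p _
      rfl
    · intro p _
      rfl
    · intro p _
      exact hg _ _
  rw [h1, Finset.sum_filter (fun p : ℕ × ℕ => p.1 ≠ p.2) (fun p : ℕ × ℕ => g p.1 p.2),
    ← Finset.sum_add_distrib]
  refine Finset.sum_congr rfl fun p _ => ?_
  by_cases hp : p.1 = p.2
  · simp [hp]
  · simp only [hp, ne_eq, not_false_eq_true, if_true, if_false]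
    ring

/-- the sum of squares as an exponential sum -/
theorem eval_eq (T y : ℝ) :
    ∑ i, c i * (∑ a ∈ A, f i a * Real.exp (-T * h a) * Real.exp (T * y) ^ a) ^ 2 =
      G (JJ A f c) (CC f c) ee (hh h) T y := by
  classical
  have h1 : ∀ i, c i * (∑ a ∈ A, f i a * Real.exp (-T * h a) * Real.exp (T * y) ^ a) ^ 2 =
      ∑ p ∈ A ×ˢ A, (c i * f i p.1) * f i p.2 * Real.exp (T * (ee p * y - hh h p)) := by
    intro i
    rw [sq, Finset.sum_mul_sum, Finset.mul_sum, Finset.sum_product]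
    refine Finset.sum_congr rfl fun a _ => ?_
    rw [Finset.mul_sum]
    refine Finset.sum_congr rfl fun b _ => ?_
    have h2 : Real.exp (T * (ee (a, b) * y - hh h (a, b))) =
        Real.exp (-T * h a) * Real.exp (T * y) ^ a * (Real.exp (-T * h b) * Real.exp (T * y) ^ b) := by
      rw [← Real.exp_nat_mul, ← Real.exp_nat_mul, ← Real.exp_add, ← Real.exp_add, ← Real.exp_add]
      congr 1
      unfold ee hh
      ring
    rw [h2]
    ring
  rw [Finset.sum_congr rfl fun i _ => h1 i, Finset.sum_comm]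
  have h3 : ∀ p ∈ A ×ˢ A, ∑ i, (c i * f i p.1) * f i p.2 * Real.exp (T * (ee p * y - hh h p)) =
      gram f c p.1 p.2 * Real.exp (T * (((p.1 : ℝ) + p.2) * y - (h p.1 + h p.2))) := by
    intro p _
    rw [← Finset.sum_mul]
    rfl
  rw [Finset.sum_congr rfl h3]
  rw [sum_symm A (fun a b => gram f c a b * Real.exp (T * (((a : ℝ) + b) * y - (h a + h b))))
    fun a b => by
      rw [gram_comm, add_comm (a : ℝ), add_comm (h a)]]
  unfold G
  have h4 : JJ A f c ⊆ (A ×ˢ A).filter (fun p => p.1 ≤ p.2) := by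
    intro p hp
    rw [mem_JJ] at hp
    rw [Finset.mem_filter, Finset.mem_product]
    exact ⟨hp.1, hp.2.1⟩
  rw [← Finset.sum_subset h4]
  · refine Finset.sum_congr rfl fun p _ => ?_
    unfold CC ee hh
    ring
  · intro p hp hp'
    rw [Finset.mem_filter, Finset.mem_product] at hp
    have h5 : gram f c p.1 p.2 = 0 := by
      by_contra h6
      exact hp' ((mem_JJ A f c).2 ⟨hp.1, hp.2, h6⟩)
    rw [h5]
    ring

/-- the bound for the positive zeros -/
theorem pos_bound (hQ : Qi A h) : ∃ T0 : ℝ, ∀ T ≥ T0, 0 < T →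
    (∀ x > 0, ∑ i, c i * (∑ a ∈ A, f i a * Real.exp (-T * h a) * x ^ a) ^ 2 = 0) ∨
    ∀ Z : Finset ℝ, (∀ z ∈ Z, 0 < z ∧
      ∑ i, c i * (∑ a ∈ A, f i a * Real.exp (-T * h a) * z ^ a) ^ 2 = 0) →
      Z.card ≤ 2 * (s * (2 * A.card - 1)) := by
  classical
  by_cases hJ : (JJ A f c).Nonempty
  · obtain ⟨T0, hT0⟩ := global_zeros (JJ A f c) (CC f c) ee (hh h) (fun p hp => by
      have h1 := ((mem_JJ A f c).1 hp).2.2
      unfold CC
      refine mul_ne_zero ?_ h1
      split_ifs <;> norm_num) (JJ_inj A f c h hQ) hJ (s * (2 * A.card - 1)) (card_B A f c h hQ)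
      (amax_card A f c h hQ)
    refine ⟨T0, fun T hT hT1 => Or.inr fun Z hZ => ?_⟩
    have h1 : (Z.image fun z => Real.log z / T).card ≤ 2 * (s * (2 * A.card - 1)) := by
      refine hT0 T hT _ fun y hy => ?_
      obtain ⟨z, hz, rfl⟩ := Finset.mem_image.1 hy
      rw [← eval_eq]
      have h2 : T * (Real.log z / T) = Real.log z := by field_simp
      rw [h2, Real.exp_log (hZ z hz).1]
      exact (hZ z hz).2
    rwa [Finset.card_image_of_injOn] at h1
    intro z hz w hw hzw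
    simp only at hzw
    have h2 : Real.log z = Real.log w := by
      field_simp at hzw
      exact hzw
    exact Real.log_injOn_pos (Set.mem_Ioi.2 (hZ z hz).1) (Set.mem_Ioi.2 (hZ w hw).1) h2
  · refine ⟨0, fun T _ hT => Or.inl fun x hx => ?_⟩
    have h1 := eval_eq A f c h T (Real.log x / T)
    have h2 : T * (Real.log x / T) = Real.log x := by field_simp
    rw [h2, Real.exp_log hx] at h1
    rw [h1]
    unfold G
    rw [Finset.not_nonempty_iff_eq_empty.1 hJ, Finset.sum_empty]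

end

end P5180
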